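import Pool.Agent.Helper76.MH.Primes

/-!
# Good translations
-/

open Finset Filter

namespace Pool.Agent.Helper76.TP

open Pool.Agent.Helper76.MH (ev_const ev_log)

/-- Chebyshev, in a convenient form -/
lemma cheb : ∀ᶠ N : ℕ in atTop, (N:ℝ) / (2 * Real.log N) ≤ (Nat.primeCounting N : ℝ) := by
  filter_upwards [eventually_ge_atTop 3, ev_log (δ := 1/2) (by norm_num), ev_const 20 (δ := 1/2) (by norm_num)]
    with n hn h1 h2
  have hn3 : (3:ℝ) ≤ n := by exact_mod_cast hn
  have hn0 : (0:ℝ) < n := by linarith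
  have hlog : 0 < Real.log n := Real.log_pos (by linarith)
  refine le_trans ?_ (Chebyshev.pi_ge n)
  rw [div_le_div_iff₀ (by positivity) hlog]
  have h3 : Real.log ((n:ℝ) + 1) ≤ 2 * Real.log n := by
    have h4 : (n:ℝ) + 1 ≤ (n:ℝ) ^ 2 := by nlinarith
    have h5 := Real.log_le_log (by linarith) h4
    rw [Real.log_pow] at h5
    push_cast at h5
    exact h5
  have h4 : (0.69:ℝ) ≤ Real.log 2 := by
    have := Real.log_two_gt_d9
    linarith
  have h5 : (n:ℝ) = (n:ℝ) ^ (1/2 : ℝ) * (n:ℝ) ^ (1/2 : ℝ) := by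
    rw [← Real.rpow_add hn0]
    norm_num
  have h6 : 2 * Real.log n ≤ n * (1/10) := by
    calc 2 * Real.log n ≤ 2 * (n:ℝ) ^ (1/2 : ℝ) := by linarith
      _ ≤ (n:ℝ) ^ (1/2 : ℝ) * (n:ℝ) ^ (1/2 : ℝ) * (1/10) := by nlinarith
      _ = n * (1/10) := by rw [← h5]
  have h7 : (n:ℝ) * 0.5 ≤ n * Real.log 2 - Real.log ((n:ℝ) + 1) := by nlinarith
  nlinarith

lemma pi_tendsto : Tendsto (fun N : ℕ => (Nat.primeCounting N : ℝ)) atTop atTop :=
  tendsto_natCast_atTop_atTop.comp Nat.tendsto_primeCounting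

/-- a number has few prime factors larger than `B` -/
lemma few_large_primes {B N : ℕ} (hB : 2 ≤ B) (hN : 0 < N) (s : Finset ℕ)
    (hs : ∀ p ∈ s, p.Prime ∧ B < p ∧ p ∣ N) : (s.card : ℝ) * Real.log B ≤ Real.log N := by
  have h1 : B ^ s.card ≤ N := by
    calc B ^ s.card = ∏ p ∈ s, B := by rw [Finset.prod_const]
      _ ≤ ∏ p ∈ s, p := Finset.prod_le_prod' fun p hp => (hs p hp).2.1.le
      _ ≤ N := Nat.le_of_dvd hN (Finset.prod_primes_dvd N (fun p hp => (hs p hp).1.prime)
          (fun p hp => (hs p hp).2.2))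
  have h2 : (B:ℝ) ^ s.card ≤ N := by exact_mod_cast h1
  have hB0 : (0:ℝ) < B := by
    have : 0 < B := by omega
    exact_mod_cast this
  have h3 := Real.log_le_log (by positivity) h2
  rwa [Real.log_pow] at h3

open Classical in
/-- the primes in `(B, x]` that divide some `a + t` with `1 ≤ a ≤ n` -/
noncomputable def bad (n t B x : ℕ) : Finset ℕ :=
  (Finset.Ioc B x).filter fun p => p.Prime ∧ ∃ a : ℕ, 1 ≤ a ∧ a ≤ n ∧ p ∣ a + t

lemma mem_bad {n t B x p : ℕ} : p ∈ bad n t B x ↔
    (B < p ∧ p ≤ x) ∧ p.Prime ∧ ∃ a : ℕ, 1 ≤ a ∧ a ≤ n ∧ p ∣ a + t := by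
  classical
  simp only [bad, Finset.mem_filter, Finset.mem_Ioc]

/-- all bad primes together are few -/
lemma bad_card_le {n t B x : ℕ} (hB : 2 ≤ B) :
    ((bad n t B x).card : ℝ) * Real.log B ≤ n * Real.log ((n:ℝ) + t) := by
  classical
  have h1 : bad n t B x ⊆ (Finset.Icc 1 n).biUnion fun a => (bad n t B x).filter fun p => p ∣ a + t := by
    intro p hp
    obtain ⟨_, _, a, ha1, ha2, ha3⟩ := mem_bad.1 hp
    exact Finset.mem_biUnion.2 ⟨a, Finset.mem_Icc.2 ⟨ha1, ha2⟩, Finset.mem_filter.2 ⟨hp, ha3⟩⟩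
  have hlogB : 0 ≤ Real.log B := Real.log_natCast_nonneg B
  have h2 : ((bad n t B x).card : ℝ) ≤ ∑ a ∈ Finset.Icc 1 n, (((bad n t B x).filter fun p => p ∣ a + t).card : ℝ) := by
    have := (Finset.card_le_card h1).trans Finset.card_biUnion_le
    exact_mod_cast this
  calc ((bad n t B x).card : ℝ) * Real.log B
      ≤ (∑ a ∈ Finset.Icc 1 n, (((bad n t B x).filter fun p => p ∣ a + t).card : ℝ)) * Real.log B := by gcongr
    _ = ∑ a ∈ Finset.Icc 1 n, (((bad n t B x).filter fun p => p ∣ a + t).card : ℝ) * Real.log B := by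
        rw [Finset.sum_mul]
    _ ≤ ∑ a ∈ Finset.Icc 1 n, Real.log ((n:ℝ) + t) := by
        refine Finset.sum_le_sum fun a ha => ?_
        rw [Finset.mem_Icc] at ha
        have h3 := few_large_primes hB (N := a + t) (by omega) ((bad n t B x).filter fun p => p ∣ a + t)
          (fun p hp => by
            rw [Finset.mem_filter] at hp
            obtain ⟨⟨h4, _⟩, h5, _⟩ := mem_bad.1 hp.1
            exact ⟨h5, h4, hp.2⟩)
        refine h3.trans ?_
        apply Real.log_le_log
        · have : 0 < a + t := by omega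
          exact_mod_cast this
        · push_cast
          have : (a:ℝ) ≤ n := by exact_mod_cast ha.2
          linarith
    _ = n * Real.log ((n:ℝ) + t) := by
        rw [Finset.sum_const, Nat.card_Icc, nsmul_eq_mul]
        simp

/-- solutions of a linear congruence -/
lemma lin_count {p L a X : ℕ} (hp : p.Prime) (hL : ¬ p ∣ L) :
    (((Finset.Icc 1 X).filter fun m => p ∣ a + L * m).card) ≤ X / p + 2 := by
  classical
  by_cases hne : ((Finset.Icc 1 X).filter fun m => p ∣ a + L * m).Nonempty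
  · obtain ⟨m0, hm0⟩ := hne
    rw [Finset.mem_filter, Finset.mem_Icc] at hm0
    have hsub : ((Finset.Icc 1 X).filter fun m => p ∣ a + L * m) ⊆
        (Finset.range (X + 1)).filter fun m => m ≡ m0 [MOD p] := by
      intro m hm
      rw [Finset.mem_filter, Finset.mem_Icc] at hm
      rw [Finset.mem_filter, Finset.mem_range]
      refine ⟨by omega, ?_⟩
      have h1 : a + L * m ≡ a + L * m0 [MOD p] := by
        have h2 := (Nat.modEq_zero_iff_dvd).2 hm.2
        have h3 := (Nat.modEq_zero_iff_dvd).2 hm0.2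
        exact h2.trans h3.symm
      have h2 : L * m ≡ L * m0 [MOD p] := Nat.ModEq.add_left_cancel' a h1
      exact Nat.ModEq.cancel_left_of_coprime ((Nat.Prime.coprime_iff_not_dvd hp).2 hL) h2
    refine (Finset.card_le_card hsub).trans ?_
    rw [← Nat.count_eq_card_filter_range, Nat.count_modEq_card _ hp.pos]
    have h1 : (X + 1) / p ≤ X / p + 1 := by
      rw [Nat.succ_div]
      split_ifs <;> omega
    split_ifs <;> omega
  · rw [Finset.not_nonempty_iff_eq_empty] at hne
    rw [hne]
    simp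

/-- a good multiplier -/
lemma exists_mult {n B C : ℕ} (hB : 1 ≤ B) (hC : 1 ≤ C) : ∃ m : ℕ, 1 ≤ m ∧ m ≤ C * B ∧
    (bad n (primorial B * m) B (C * B)).card ≤ n * (C + 2) := by
  classical
  set X := C * B with hX
  set L := primorial B with hL
  have hX1 : 1 ≤ X := Nat.mul_pos hC hB
  by_contra hcon
  push Not at hcon
  have h1 : ∑ m ∈ Finset.Icc 1 X, (n * (C + 2) + 1) ≤ ∑ m ∈ Finset.Icc 1 X, (bad n (L * m) B X).card := by
    refine Finset.sum_le_sum fun m hm => ?_
    rw [Finset.mem_Icc] at hm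
    exact hcon m hm.1 hm.2
  have h2 : ∑ m ∈ Finset.Icc 1 X, (bad n (L * m) B X).card ≤ X * (n * (C + 2)) := by
    calc ∑ m ∈ Finset.Icc 1 X, (bad n (L * m) B X).card
        ≤ ∑ m ∈ Finset.Icc 1 X, ∑ p ∈ (Finset.Ioc B X).filter Nat.Prime, ∑ a ∈ Finset.Icc 1 n,
            (if p ∣ a + L * m then 1 else 0) := by
          refine Finset.sum_le_sum fun m _ => ?_
          rw [Finset.card_eq_sum_ones]
          have hsub : bad n (L * m) B X ⊆ (Finset.Ioc B X).filter Nat.Prime := by
            intro p hp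
            obtain ⟨h3, h4, _⟩ := mem_bad.1 hp
            exact Finset.mem_filter.2 ⟨Finset.mem_Ioc.2 h3, h4⟩
          calc ∑ p ∈ bad n (L * m) B X, 1
              ≤ ∑ p ∈ bad n (L * m) B X, ∑ a ∈ Finset.Icc 1 n, (if p ∣ a + L * m then 1 else 0) := by
                refine Finset.sum_le_sum fun p hp => ?_
                obtain ⟨_, _, a, ha1, ha2, ha3⟩ := mem_bad.1 hp
                calc 1 = (if p ∣ a + L * m then 1 else 0) := by rw [if_pos ha3]
                  _ ≤ _ := Finset.single_le_sum (f := fun a => if p ∣ a + L * m then 1 else 0)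
                      (fun _ _ => Nat.zero_le _) (Finset.mem_Icc.2 ⟨ha1, ha2⟩)
            _ ≤ _ := Finset.sum_le_sum_of_subset_of_nonneg hsub (fun _ _ _ => Nat.zero_le _)
      _ = ∑ p ∈ (Finset.Ioc B X).filter Nat.Prime, ∑ a ∈ Finset.Icc 1 n,
            ((Finset.Icc 1 X).filter fun m => p ∣ a + L * m).card := by
          rw [Finset.sum_comm]
          refine Finset.sum_congr rfl fun p _ => ?_
          rw [Finset.sum_comm]
          refine Finset.sum_congr rfl fun a _ => ?_
          rw [Finset.card_filter]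
      _ ≤ ∑ p ∈ (Finset.Ioc B X).filter Nat.Prime, ∑ a ∈ Finset.Icc 1 n, (C + 2) := by
          refine Finset.sum_le_sum fun p hp => Finset.sum_le_sum fun a _ => ?_
          rw [Finset.mem_filter, Finset.mem_Ioc] at hp
          have hpL : ¬ p ∣ L := by
            intro h
            have := (hp.2.dvd_primorial_iff).1 h
            omega
          refine (lin_count hp.2 hpL).trans ?_
          have h3 : X / p ≤ C := by
            calc X / p ≤ X / B := Nat.div_le_div_left hp.1.1.le (by omega)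
              _ = C := by rw [hX, Nat.mul_div_cancel _ (by omega)]
          omega
      _ = ((Finset.Ioc B X).filter Nat.Prime).card * (n * (C + 2)) := by
          simp only [Finset.sum_const, Nat.card_Icc, smul_eq_mul, Nat.add_sub_cancel]
      _ ≤ X * (n * (C + 2)) := by
          apply Nat.mul_le_mul_right
          refine (Finset.card_filter_le _ _).trans ?_
          rw [Nat.card_Ioc]
          omega
  rw [Finset.sum_const, Nat.card_Icc, Nat.add_sub_cancel, smul_eq_mul] at h1
  have h3 : X * (n * (C + 2) + 1) ≤ X * (n * (C + 2)) := h1.trans h2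
  have h4 := Nat.le_of_mul_le_mul_left h3 (by omega)
  omega

/-- **A good translation.** -/
theorem exists_good (n : ℕ) (hn : 1 ≤ n) : ∃ t B : ℕ, n ≤ B ∧ 1 ≤ t ∧
    (∀ p : ℕ, p.Prime → p ≤ B → p ∣ t) ∧
    ∀ x : ℕ, (2:ℝ) ^ (n + 3) * ((bad n t B x).card : ℝ) ≤ (Nat.primeCounting x : ℝ) := by
  classical
  set C : ℕ := n * 2 ^ (n + 6) with hC
  have hC1 : 1 ≤ C := Nat.mul_pos hn (by positivity)
  have hCr : (1:ℝ) ≤ C := by exact_mod_cast hC1
  have hcheb : ∀ᶠ B : ℕ in atTop, ((C * B : ℕ):ℝ) / (2 * Real.log ((C * B : ℕ) : ℝ)) ≤ (Nat.primeCounting (C * B) : ℝ) := by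
    have ht : Tendsto (fun B : ℕ => C * B) atTop atTop :=
      Filter.tendsto_atTop_mono (fun B => Nat.le_mul_of_pos_left B hC1) tendsto_id
    exact ht.eventually cheb
  have hpi : ∀ᶠ B : ℕ in atTop, (2:ℝ) ^ (n + 3) * ((n * (C + 2) : ℕ) : ℝ) ≤ (Nat.primeCounting B : ℝ) :=
    pi_tendsto.eventually_ge_atTop _
  obtain ⟨B, h1, h2, h3, h4, h5⟩ := ((hcheb.and (hpi.and ((eventually_ge_atTop (C + n + 4)).and
    ((ev_log (δ := 1/2) (by norm_num)).and (ev_const 20 (δ := 1/2) (by norm_num)))))).exists)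
  have hBC : C ≤ B := by omega
  have hBn : n ≤ B := by omega
  have hB2 : 2 ≤ B := by omega
  have hBr : (4:ℝ) ≤ B := by
    have : 4 ≤ B := by omega
    exact_mod_cast this
  have hB0 : (0:ℝ) < B := by linarith
  obtain ⟨m, hm1, hm2, hm3⟩ := exists_mult (n := n) (B := B) (C := C) (by omega) hC1
  set t := primorial B * m with ht
  have ht1 : 1 ≤ t := Nat.mul_pos (primorial_pos B) hm1
  refine ⟨t, B, hBn, ht1, fun p hp hpB => ?_, fun x => ?_⟩
  · exact Dvd.dvd.mul_right ((hp.dvd_primorial_iff).2 hpB) m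
  · have hlogB : 0 < Real.log B := Real.log_pos (by linarith)
    rcases le_or_gt x (C * B) with hx | hx
    · -- small x
      by_cases hxB : x ≤ B
      · have hempty : bad n t B x = ∅ := by
          rw [Finset.eq_empty_iff_forall_notMem]
          intro p hp
          obtain ⟨h6, _⟩ := mem_bad.1 hp
          omega
        rw [hempty]
        simp
      · push Not at hxB
        have h6 : (bad n t B x).card ≤ n * (C + 2) := by
          refine (Finset.card_le_card ?_).trans hm3
          intro p hp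
          obtain ⟨h7, h8, h9⟩ := mem_bad.1 hp
          exact mem_bad.2 ⟨⟨h7.1, h7.2.trans hx⟩, h8, h9⟩
        have h7 : ((bad n t B x).card : ℝ) ≤ ((n * (C + 2) : ℕ) : ℝ) := by exact_mod_cast h6
        have h8 : (Nat.primeCounting B : ℝ) ≤ (Nat.primeCounting x : ℝ) := by
          exact_mod_cast Nat.monotone_primeCounting hxB.le
        calc (2:ℝ) ^ (n + 3) * ((bad n t B x).card : ℝ) ≤ (2:ℝ) ^ (n + 3) * ((n * (C + 2) : ℕ) : ℝ) := by gcongr
          _ ≤ (Nat.primeCounting B : ℝ) := h2
          _ ≤ _ := h8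
    · -- large x
      have h6 := bad_card_le (n := n) (t := t) (B := B) (x := x) hB2
      have hlogCB : Real.log ((C * B : ℕ) : ℝ) ≤ 2 * Real.log B := by
        have h7 : ((C * B : ℕ) : ℝ) ≤ (B:ℝ) ^ 2 := by
          push_cast
          have : (C:ℝ) ≤ B := by exact_mod_cast hBC
          nlinarith
        have h8 := Real.log_le_log (by
          have : 0 < C * B := Nat.mul_pos hC1 (by omega)
          exact_mod_cast this) h7
        rw [Real.log_pow] at h8
        push_cast at h8 ⊢
        exact h8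
      have hlogt : Real.log ((n:ℝ) + t) ≤ 2 * B := by
        have h7 : (n:ℝ) + t ≤ (4:ℝ) ^ B * (B:ℝ) ^ 3 := by
          have h8 : (t:ℝ) ≤ (4:ℝ) ^ B * (B:ℝ) ^ 2 := by
            rw [ht]
            push_cast
            have h9 : ((primorial B : ℕ) : ℝ) ≤ (4:ℝ) ^ B := by exact_mod_cast primorial_le_four_pow B
            have h10 : (m:ℝ) ≤ (B:ℝ) ^ 2 := by
              have h11 : m ≤ B ^ 2 := by
                calc m ≤ C * B := hm2
                  _ ≤ B * B := Nat.mul_le_mul_right _ hBC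
                  _ = B ^ 2 := by ring
              exact_mod_cast h11
            gcongr
          have h9 : (n:ℝ) ≤ (B:ℝ) := by exact_mod_cast hBn
          have h10 : (1:ℝ) ≤ (4:ℝ) ^ B := one_le_pow₀ (by norm_num)
          have h11 : (n:ℝ) ≤ (4:ℝ) ^ B * (B:ℝ) ^ 2 := by
            calc (n:ℝ) ≤ B := h9
              _ ≤ 1 * (B:ℝ) ^ 2 := by nlinarith
              _ ≤ (4:ℝ) ^ B * (B:ℝ) ^ 2 := by gcongr
          calc (n:ℝ) + t ≤ (4:ℝ) ^ B * (B:ℝ) ^ 2 + (4:ℝ) ^ B * (B:ℝ) ^ 2 := by linarith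
            _ = (4:ℝ) ^ B * (B:ℝ) ^ 2 * 2 := by ring
            _ ≤ (4:ℝ) ^ B * (B:ℝ) ^ 2 * B := by gcongr; linarith
            _ = (4:ℝ) ^ B * (B:ℝ) ^ 3 := by ring
        have h8 := Real.log_le_log (by positivity) h7
        rw [Real.log_mul (by positivity) (by positivity), Real.log_pow, Real.log_pow] at h8
        push_cast at h8
        have h9 : Real.log 4 ≤ 1.4 := by
          have e : (4:ℝ) = 2 ^ 2 := by norm_num
          rw [e, Real.log_pow]
          have := Real.log_two_lt_d9
          push_cast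
          linarith
        have h10 : (B:ℝ) = (B:ℝ) ^ (1/2 : ℝ) * (B:ℝ) ^ (1/2 : ℝ) := by
          rw [← Real.rpow_add hB0]
          norm_num
        have h11 : 3 * Real.log B ≤ B * 0.6 := by
          calc 3 * Real.log B ≤ 3 * (B:ℝ) ^ (1/2 : ℝ) := by linarith
            _ ≤ (B:ℝ) ^ (1/2 : ℝ) * (B:ℝ) ^ (1/2 : ℝ) * 0.6 := by nlinarith
            _ = B * 0.6 := by rw [← h10]
        nlinarith
      -- combine
      have hpix : ((C * B : ℕ):ℝ) / (4 * Real.log B) ≤ (Nat.primeCounting x : ℝ) := by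
        have h8 : (Nat.primeCounting (C * B) : ℝ) ≤ (Nat.primeCounting x : ℝ) := by
          exact_mod_cast Nat.monotone_primeCounting hx.le
        refine le_trans ?_ (h1.trans h8)
        have hpos : 0 < Real.log ((C * B : ℕ) : ℝ) := by
          apply Real.log_pos
          have : 1 < C * B := by nlinarith
          exact_mod_cast this
        exact div_le_div_of_nonneg_left (Nat.cast_nonneg _) (by positivity) (by linarith)
      have h7 : ((bad n t B x).card : ℝ) ≤ 2 * n * B / Real.log B := by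
        rw [le_div_iff₀ hlogB]
        calc ((bad n t B x).card : ℝ) * Real.log B ≤ n * Real.log ((n:ℝ) + t) := h6
          _ ≤ n * (2 * B) := by gcongr
          _ = 2 * n * B := by ring
      calc (2:ℝ) ^ (n + 3) * ((bad n t B x).card : ℝ) ≤ (2:ℝ) ^ (n + 3) * (2 * n * B / Real.log B) := by gcongr
        _ = ((C * B : ℕ):ℝ) / (4 * Real.log B) := by
            rw [hC]
            push_cast
            have e : (2:ℝ) ^ (n + 6) = (2:ℝ) ^ (n + 3) * 8 := by
              rw [show n + 6 = (n + 3) + 3 by ring, pow_add]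
              norm_num
            rw [e]
            field_simp
            ring
        _ ≤ _ := hpix

end Pool.Agent.Helper76.TP
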