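import Pool.Agent.Helper76.TP.GoodT
import Pool.Prelude.Def_F_cfb2a9ca

/-!
# An admissible partition of the primes with the translation property
-/

open Finset Filter Asymptotics N41f07a28

namespace Pool.Agent.Helper76.TP

/-- the exceptional primes together with the primes of even index -/
def PP (T Bf : ℕ → ℕ) : Set ℕ :=
  {p : ℕ | p.Prime ∧ ((∃ k : ℕ, p = Nat.nth Nat.Prime (2 * k)) ∨
    ∃ n : ℕ, 1 ≤ n ∧ Bf n < p ∧ ∃ a : ℕ, 1 ≤ a ∧ a ≤ n ∧ p ∣ a + T n)}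

lemma translation {T Bf : ℕ → ℕ} (hB : ∀ n, 1 ≤ n → n ≤ Bf n) (hT : ∀ n, 1 ≤ n → 1 ≤ T n)
    (hd : ∀ n, 1 ≤ n → ∀ p : ℕ, p.Prime → p ≤ Bf n → p ∣ T n) :
    HasTranslationProperty (composedOf (PP T Bf)) := by
  intro n
  rcases Nat.eq_zero_or_pos n with h0 | h0
  · refine ⟨1, le_refl 1, fun a ha1 ha2 => ?_⟩
    omega
  · refine ⟨T n, hT n h0, fun a ha1 ha2 => ⟨fun h => ?_, fun h => ?_⟩⟩
    · refine ⟨by omega, fun p hp hpd => ?_⟩
      rcases le_or_gt p (Bf n) with h1 | h1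
      · have h2 := hd n h0 p hp h1
        have h3 : p ∣ a := (Nat.dvd_add_left h2).1 hpd
        exact h.2 p hp h3
      · exact ⟨hp, Or.inr ⟨n, h0, h1, a, ha1, ha2, hpd⟩⟩
    · refine ⟨by omega, fun p hp hpd => ?_⟩
      have h1 : p ≤ Bf n := (Nat.le_of_dvd (by omega) hpd).trans (ha2.trans (hB n h0))
      exact h.2 p hp ((Nat.dvd_add_left (hd n h0 p hp h1)).2 hpd)

lemma nth_le {j x : ℕ} (h : j < Nat.primeCounting x) : Nat.nth Nat.Prime j ≤ x := by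
  have h1 : j < Nat.count Nat.Prime (x + 1) := h
  have := Nat.nth_lt_of_lt_count h1
  omega

lemma nth_inj : Function.Injective (Nat.nth Nat.Prime) :=
  Nat.nth_injective Nat.infinite_setOfPred_prime

/-- the set `PP` is large -/
lemma large_P (T Bf : ℕ → ℕ) (x : ℕ) :
    (Nat.primeCounting x : ℝ) / 2 ≤ ((PP T Bf ∩ Set.Iic x).ncard : ℝ) := by
  classical
  set N := Nat.primeCounting x with hN
  set s : Finset ℕ := (Finset.range ((N + 1) / 2)).image (fun k => Nat.nth Nat.Prime (2 * k)) with hs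
  have hcard : s.card = (N + 1) / 2 := by
    rw [hs, Finset.card_image_of_injective, Finset.card_range]
    intro a b hab
    have := nth_inj hab
    omega
  have hsub : (s : Set ℕ) ⊆ PP T Bf ∩ Set.Iic x := by
    intro p hp
    rw [Finset.mem_coe, hs, Finset.mem_image] at hp
    obtain ⟨k, hk, rfl⟩ := hp
    rw [Finset.mem_range] at hk
    refine ⟨⟨Nat.prime_nth_prime _, Or.inl ⟨k, rfl⟩⟩, nth_le ?_⟩
    omega
  have h1 : s.card ≤ (PP T Bf ∩ Set.Iic x).ncard := by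
    rw [← Set.ncard_coe_finset]
    exact Set.ncard_le_ncard hsub ((Set.finite_Iic x).inter_of_right _)
  rw [hcard] at h1
  have h2 : ((N:ℝ)) / 2 ≤ (((N + 1) / 2 : ℕ) : ℝ) := by
    have h3 : N ≤ 2 * ((N + 1) / 2) := by omega
    have h4 : (N:ℝ) ≤ 2 * (((N + 1) / 2 : ℕ) : ℝ) := by exact_mod_cast h3
    linarith
  have h3 : (((N + 1) / 2 : ℕ) : ℝ) ≤ ((PP T Bf ∩ Set.Iic x).ncard : ℝ) := by exact_mod_cast h1
  linarith

lemma geom_le (x : ℕ) : ∑ n ∈ Finset.Icc 1 x, (1:ℝ) / 2 ^ (n + 3) ≤ 1 / 8 := by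
  have h : ∀ x : ℕ, ∑ n ∈ Finset.Icc 1 x, (1:ℝ) / 2 ^ (n + 3) ≤ 1 / 8 - 1 / 2 ^ (x + 3) := by
    intro x
    induction x with
    | zero => norm_num
    | succ x ih =>
      rw [Finset.sum_Icc_succ_top (by omega)]
      have e : (1:ℝ) / 2 ^ (x + 3) = 2 * (1 / 2 ^ (x + 1 + 3)) := by
        rw [show x + 1 + 3 = (x + 3) + 1 by ring, pow_succ (2:ℝ) (x + 3)]
        have : (2:ℝ) ^ (x + 3) ≠ 0 := by positivity
        field_simp
      rw [e] at ih
      linarith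
  have h1 := h x
  have h2 : (0:ℝ) ≤ 1 / 2 ^ (x + 3) := by positivity
  linarith

/-- the complement is large -/
lemma large_Q {T Bf : ℕ → ℕ} (hB : ∀ n, 1 ≤ n → n ≤ Bf n)
    (hbad : ∀ n, 1 ≤ n → ∀ x : ℕ, (2:ℝ) ^ (n + 3) * ((bad n (T n) (Bf n) x).card : ℝ) ≤ (Nat.primeCounting x : ℝ))
    {x : ℕ} (hx : 2 ≤ Nat.primeCounting x) :
    (Nat.primeCounting x : ℝ) / 8 ≤ ((({p : ℕ | p.Prime} \ PP T Bf) ∩ Set.Iic x).ncard : ℝ) := by
  classical
  set N := Nat.primeCounting x with hN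
  set s : Finset ℕ := (Finset.range (N / 2)).image (fun k => Nat.nth Nat.Prime (2 * k + 1)) with hs
  set E : Finset ℕ := (Finset.Icc 1 x).biUnion (fun n => bad n (T n) (Bf n) x) with hE
  have hcard : s.card = N / 2 := by
    rw [hs, Finset.card_image_of_injective, Finset.card_range]
    intro a b hab
    have := nth_inj hab
    omega
  have hEcard : (E.card : ℝ) ≤ N / 8 := by
    have h1 : (E.card : ℝ) ≤ ∑ n ∈ Finset.Icc 1 x, ((bad n (T n) (Bf n) x).card : ℝ) := by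
      have : E.card ≤ ∑ n ∈ Finset.Icc 1 x, (bad n (T n) (Bf n) x).card := Finset.card_biUnion_le
      exact_mod_cast this
    calc (E.card : ℝ) ≤ ∑ n ∈ Finset.Icc 1 x, ((bad n (T n) (Bf n) x).card : ℝ) := h1
      _ ≤ ∑ n ∈ Finset.Icc 1 x, (N:ℝ) * (1 / 2 ^ (n + 3)) := by
          refine Finset.sum_le_sum fun n hn => ?_
          rw [Finset.mem_Icc] at hn
          have h2 := hbad n hn.1 x
          rw [mul_one_div, le_div_iff₀ (by positivity)]
          linarith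
      _ = (N:ℝ) * ∑ n ∈ Finset.Icc 1 x, (1:ℝ) / 2 ^ (n + 3) := by rw [Finset.mul_sum]
      _ ≤ (N:ℝ) * (1 / 8) := by
          gcongr
          exact geom_le x
      _ = N / 8 := by ring
  have hsub : ((s \ E : Finset ℕ) : Set ℕ) ⊆ ({p : ℕ | p.Prime} \ PP T Bf) ∩ Set.Iic x := by
    intro p hp
    rw [Finset.mem_coe, Finset.mem_sdiff, hs, Finset.mem_image] at hp
    obtain ⟨⟨k, hk, rfl⟩, hpE⟩ := hp
    rw [Finset.mem_range] at hk
    have hle : Nat.nth Nat.Prime (2 * k + 1) ≤ x := nth_le (by omega)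
    refine ⟨⟨Nat.prime_nth_prime _, ?_⟩, hle⟩
    rintro ⟨_, h | h⟩
    · obtain ⟨k', hk'⟩ := h
      have := nth_inj hk'
      omega
    · obtain ⟨n, hn1, hn2, a, ha1, ha2, ha3⟩ := h
      apply hpE
      rw [hE, Finset.mem_biUnion]
      refine ⟨n, Finset.mem_Icc.2 ⟨hn1, ?_⟩, mem_bad.2 ⟨⟨hn2, hle⟩, Nat.prime_nth_prime _, a, ha1, ha2, ha3⟩⟩
      have := hB n hn1
      omega
  have h1 : (s \ E).card ≤ (({p : ℕ | p.Prime} \ PP T Bf) ∩ Set.Iic x).ncard := by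
    rw [← Set.ncard_coe_finset]
    exact Set.ncard_le_ncard hsub ((Set.finite_Iic x).inter_of_right _)
  have h2 : s.card ≤ (s \ E).card + E.card := by
    have h0 : s ⊆ (s \ E) ∪ E := by
      intro p hp
      by_cases hpE : p ∈ E
      · exact Finset.mem_union_right _ hpE
      · exact Finset.mem_union_left _ (Finset.mem_sdiff.2 ⟨hp, hpE⟩)
    exact (Finset.card_le_card h0).trans (Finset.card_union_le _ _)
  rw [hcard] at h2
  have h3 : ((N / 2 : ℕ) : ℝ) ≤ ((s \ E).card : ℝ) + E.card := by exact_mod_cast h2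
  have h4 : (((s \ E).card : ℕ) : ℝ) ≤ ((({p : ℕ | p.Prime} \ PP T Bf) ∩ Set.Iic x).ncard : ℝ) := by
    exact_mod_cast h1
  have h5 : (N:ℝ) ≤ 2 * ((N / 2 : ℕ) : ℝ) + 1 := by
    have : N ≤ 2 * (N / 2) + 1 := by omega
    exact_mod_cast this
  have h6 : (2:ℝ) ≤ N := by exact_mod_cast hx
  linarith

lemma bigO_of {f : ℕ → ℝ} {c : ℝ} (hc : 0 < c) (hf : ∀ᶠ x : ℕ in atTop, c * (Nat.primeCounting x : ℝ) ≤ f x) :
    (fun x : ℕ ↦ (x : ℝ) / Real.log x) =O[atTop] f := by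
  refine IsBigO.of_bound (2 / c) ?_
  filter_upwards [hf, cheb, eventually_ge_atTop 2] with x h1 h2 h3
  have hx : (2:ℝ) ≤ x := by exact_mod_cast h3
  have hlog : 0 < Real.log x := Real.log_pos (by linarith)
  have h4 : 0 ≤ (x:ℝ) / Real.log x := by positivity
  have h5 : 0 ≤ f x := le_trans (by positivity) h1
  rw [Real.norm_eq_abs, Real.norm_eq_abs, abs_of_nonneg h4, abs_of_nonneg h5]
  have h6 : (x:ℝ) / Real.log x = 2 * ((x:ℝ) / (2 * Real.log x)) := by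
    field_simp
  rw [h6, div_mul_eq_mul_div, le_div_iff₀ hc]
  calc 2 * ((x:ℝ) / (2 * Real.log x)) * c ≤ 2 * (Nat.primeCounting x : ℝ) * c := by gcongr
    _ = 2 * (c * (Nat.primeCounting x : ℝ)) := by ring
    _ ≤ 2 * f x := by gcongr

theorem exists_admissible :
    ∃ P : Set ℕ, P ⊆ {p : ℕ | p.Prime} ∧ (fun x : ℕ ↦ (x : ℝ) / Real.log x) =O[atTop] (fun x ↦ ((P ∩ Set.Iic x).ncard : ℝ)) ∧ (fun x : ℕ ↦ (x : ℝ) / Real.log x) =O[atTop] (fun x ↦ ((({p : ℕ | p.Prime} \ P) ∩ Set.Iic x).ncard : ℝ)) ∧ HasTranslationProperty (composedOf P) := by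
  have hg : ∀ n : ℕ, ∃ t B : ℕ, 1 ≤ n → (n ≤ B ∧ 1 ≤ t ∧ (∀ p : ℕ, p.Prime → p ≤ B → p ∣ t) ∧
      ∀ x : ℕ, (2:ℝ) ^ (n + 3) * ((bad n t B x).card : ℝ) ≤ (Nat.primeCounting x : ℝ)) := by
    intro n
    by_cases hn : 1 ≤ n
    · obtain ⟨t, B, h⟩ := exists_good n hn
      exact ⟨t, B, fun _ => h⟩
    · exact ⟨0, 0, fun h => absurd h hn⟩
  choose T Bf h using hg
  refine ⟨PP T Bf, fun p hp => hp.1, ?_, ?_, translation (fun n hn => (h n hn).1)
    (fun n hn => (h n hn).2.1) (fun n hn => (h n hn).2.2.1)⟩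
  · refine bigO_of (c := 1/2) (by norm_num) (Eventually.of_forall fun x => ?_)
    have := large_P T Bf x
    linarith
  · refine bigO_of (c := 1/8) (by norm_num) ?_
    filter_upwards [Nat.tendsto_primeCounting.eventually_ge_atTop 2] with x hx
    have := large_Q (fun n hn => (h n hn).1) (fun n hn => (h n hn).2.2.2) hx
    linarith

end Pool.Agent.Helper76.TP
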